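import Mathlib

/-!
# Many graphs without a 4-cycle

A greedy lower bound for the number of graphs on a finite vertex set with a given number of edges,
no 4-cycle, and bounded degree.
-/

set_option autoImplicit false

namespace Pool.Agent.J6H70.SplitC4

open Finset

variable {α : Type*}

/-- The graph has no cycle of length four (as a subgraph). -/
def C4Free (G : SimpleGraph α) : Prop :=
  ∀ a b c d : α, a ≠ c → b ≠ d → G.Adj a b → G.Adj b c → G.Adj c d → ¬ G.Adj d a

/-- `x` and `y` are joined by a walk of length three. -/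
def Walk3 (G : SimpleGraph α) (x y : α) : Prop :=
  ∃ p q : α, G.Adj x p ∧ G.Adj p q ∧ G.Adj q y

/-- Adding one edge. -/
def addEdge (G : SimpleGraph α) (x y : α) (h : x ≠ y) : SimpleGraph α where
  Adj a b := G.Adj a b ∨ (a = x ∧ b = y) ∨ (a = y ∧ b = x)
  symm := ⟨by
    rintro a b (h | h | h)
    · exact Or.inl h.symm
    · exact Or.inr (Or.inr ⟨h.2, h.1⟩)
    · exact Or.inr (Or.inl ⟨h.2, h.1⟩)⟩
  loopless := ⟨by
    rintro a (h' | h' | h')
    · exact G.loopless.irrefl a h'
    · exact h (h'.1.symm.trans h'.2)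
    · exact h (h'.2.symm.trans h'.1)⟩

lemma addEdge_adj (G : SimpleGraph α) (x y : α) (h : x ≠ y) (a b : α) :
    (addEdge G x y h).Adj a b ↔ G.Adj a b ∨ (a = x ∧ b = y) ∨ (a = y ∧ b = x) := Iff.rfl

lemma addEdge_edgeSet (G : SimpleGraph α) (x y : α) (h : x ≠ y) :
    (addEdge G x y h).edgeSet = insert s(x, y) G.edgeSet := by
  ext e
  induction e using Sym2.ind with
  | _ a b =>
    simp only [SimpleGraph.mem_edgeSet, Set.mem_insert_iff, Sym2.eq_iff]
    rw [addEdge_adj]
    tauto

lemma walk3_symm {G : SimpleGraph α} {x y : α} (h : Walk3 G x y) : Walk3 G y x := by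
  obtain ⟨p, q, h1, h2, h3⟩ := h
  exact ⟨q, p, h3.symm, h2.symm, h1.symm⟩

lemma c4Free_addEdge {G : SimpleGraph α} (hG : C4Free G) {x y : α} (h : x ≠ y)
    (hw : ¬ Walk3 G x y) : C4Free (addEdge G x y h) := by
  have hw' : ¬ Walk3 G y x := fun h' => hw (walk3_symm h')
  -- the three remaining edges of a 4-cycle through the new edge
  have key : ∀ a b c d : α, a ≠ c → b ≠ d → ((a = x ∧ b = y) ∨ (a = y ∧ b = x)) →
      (addEdge G x y h).Adj b c → (addEdge G x y h).Adj c d →
      (addEdge G x y h).Adj d a → False := by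
    intro a b c d hac hbd hab h2 h3 h4
    have e2 : G.Adj b c := by
      rcases h2 with h2 | h2 | h2
      · exact h2
      · rcases hab with hab | hab
        · exact absurd (hab.2.symm.trans h2.1) h.symm
        · exact absurd (hab.1.trans h2.2.symm) hac
      · rcases hab with hab | hab
        · exact absurd (hab.1.trans h2.2.symm) hac
        · exact absurd (hab.2.symm.trans h2.1) h
    have e4 : G.Adj d a := by
      rcases h4 with h4 | h4 | h4
      · exact h4
      · rcases hab with hab | hab
        · exact absurd (hab.1.symm.trans h4.2) h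
        · exact absurd (hab.2.trans h4.1.symm) hbd
      · rcases hab with hab | hab
        · exact absurd (hab.2.trans h4.1.symm) hbd
        · exact absurd (hab.1.symm.trans h4.2) h.symm
    have e3 : G.Adj c d := by
      rcases h3 with h3 | h3 | h3
      · exact h3
      · rcases hab with hab | hab
        · exact absurd (hab.1.trans h3.1.symm) hac
        · exact absurd (hab.2.trans h3.1.symm) (fun hbc => by
            subst hbc; exact G.loopless.irrefl _ e2)
      · rcases hab with hab | hab
        · exact absurd (hab.2.trans h3.1.symm) (fun hbc => by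
            subst hbc; exact G.loopless.irrefl _ e2)
        · exact absurd (hab.1.trans h3.1.symm) hac
    rcases hab with hab | hab
    · obtain ⟨rfl, rfl⟩ := hab
      exact hw' ⟨c, d, e2, e3, e4⟩
    · obtain ⟨rfl, rfl⟩ := hab
      exact hw ⟨c, d, e2, e3, e4⟩
  intro a b c d hac hbd h1 h2 h3 h4
  rcases h1 with h1 | h1
  · rcases h2 with h2 | h2
    · rcases h3 with h3 | h3
      · rcases h4 with h4 | h4
        · exact hG a b c d hac hbd h1 h2 h3 h4
        · exact key d a b c hbd.symm hac h4 (Or.inl h1) (Or.inl h2) (Or.inl h3)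
      · exact key c d a b hac.symm hbd.symm h3 h4 (Or.inl h1) (Or.inl h2)
    · exact key b c d a hbd hac.symm h2 h3 h4 (Or.inl h1)
  · exact key a b c d hac hbd h1 h2 h3 h4

section Counting

variable [Fintype α] [DecidableEq α]

open Classical in
/-- Graphs with `i` edges, without a 4-cycle, all degrees at most `Δ`. -/
noncomputable def fam (α : Type*) [Fintype α] [DecidableEq α] (Δ i : ℕ) :
    Finset (SimpleGraph α) :=
  univ.filter (fun G : SimpleGraph α =>
    C4Free G ∧ (∀ x, (univ.filter (fun y => G.Adj x y)).card ≤ Δ) ∧ G.edgeSet.ncard = i)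

open Classical in
/-- The ordered pairs that may be added as an edge. -/
noncomputable def goodPairs (G : SimpleGraph α) (Δ : ℕ) : Finset (α × α) :=
  univ.filter (fun p : α × α => p.1 ≠ p.2 ∧ ¬ G.Adj p.1 p.2 ∧
    (univ.filter (fun y => G.Adj p.1 y)).card < Δ ∧
    (univ.filter (fun y => G.Adj p.2 y)).card < Δ ∧ ¬ Walk3 G p.1 p.2)

open Classical in
lemma card_adjPairs (G : SimpleGraph α) :
    (univ.filter (fun p : α × α => G.Adj p.1 p.2)).card = 2 * G.edgeSet.ncard := by
  have h1 := SimpleGraph.sum_degrees_eq_twice_card_edges G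
  have h2 : G.edgeSet.ncard = G.edgeFinset.card := by
    rw [← SimpleGraph.coe_edgeFinset, Set.ncard_coe_finset]
  rw [h2, ← h1]
  rw [card_filter, ← univ_product_univ, sum_product]
  refine sum_congr rfl fun x _ => ?_
  rw [← card_filter]
  rw [← SimpleGraph.card_neighborFinset_eq_degree]
  congr 1
  ext y
  simp

open Classical in
lemma card_walk3 (G : SimpleGraph α) (Δ : ℕ)
    (hΔ : ∀ x, (univ.filter (fun y => G.Adj x y)).card ≤ Δ) :
    (univ.filter (fun p : α × α => Walk3 G p.1 p.2)).card ≤ Fintype.card α * Δ ^ 3 := by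
  let N : α → Finset α := fun x => univ.filter (fun y => G.Adj x y)
  have hsub : (univ.filter (fun p : α × α => Walk3 G p.1 p.2)) ⊆
      univ.biUnion (fun x : α =>
        ((N x).biUnion (fun p => (N p).biUnion (fun q => N q))).image (fun y => (x, y))) := by
    rintro ⟨x, y⟩ h
    simp only [mem_filter, mem_univ, true_and] at h
    obtain ⟨p, q, h1, h2, h3⟩ := h
    simp only [mem_biUnion, mem_univ, true_and, mem_image, Prod.mk.injEq, N, mem_filter]
    exact ⟨x, y, ⟨p, h1, q, h2, h3⟩, rfl, rfl⟩
  refine (card_le_card hsub).trans ?_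
  refine (card_biUnion_le_card_mul _ _ (Δ ^ 3) ?_).trans (by simp)
  intro x _
  refine card_image_le.trans ?_
  have h1 : ∀ q, (N q).card ≤ Δ := hΔ
  have h2 : ∀ p, ((N p).biUnion (fun q => N q)).card ≤ Δ * Δ := fun p =>
    (card_biUnion_le_card_mul _ _ Δ (fun a _ => h1 a)).trans (Nat.mul_le_mul_right _ (h1 p))
  have h3 : ((N x).biUnion (fun p => (N p).biUnion (fun q => N q))).card ≤ Δ * (Δ * Δ) :=
    (card_biUnion_le_card_mul _ _ (Δ * Δ) (fun a _ => h2 a)).trans (Nat.mul_le_mul_right _ (h1 x))
  calc _ ≤ Δ * (Δ * Δ) := h3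
    _ = Δ ^ 3 := by ring

open Classical in
lemma card_high (G : SimpleGraph α) (Δ i H : ℕ) (hi : G.edgeSet.ncard = i)
    (hH : 2 * i < (H + 1) * Δ) :
    (univ.filter (fun x : α => ¬ (univ.filter (fun y => G.Adj x y)).card < Δ)).card ≤ H := by
  by_contra hcon
  rw [not_le] at hcon
  have h1 : (H + 1) * Δ ≤ ∑ x ∈ univ.filter
      (fun x : α => ¬ (univ.filter (fun y => G.Adj x y)).card < Δ),
      (univ.filter (fun y => G.Adj x y)).card := by
    calc (H + 1) * Δ ≤ (univ.filter
          (fun x : α => ¬ (univ.filter (fun y => G.Adj x y)).card < Δ)).card * Δ :=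
          Nat.mul_le_mul_right _ hcon
      _ = ∑ x ∈ univ.filter
          (fun x : α => ¬ (univ.filter (fun y => G.Adj x y)).card < Δ), Δ := by
          rw [sum_const, smul_eq_mul]
      _ ≤ _ := sum_le_sum fun x hx => by
          simp only [mem_filter, mem_univ, true_and, not_lt] at hx
          exact hx
  have h2 : ∑ x ∈ univ.filter
      (fun x : α => ¬ (univ.filter (fun y => G.Adj x y)).card < Δ),
      (univ.filter (fun y => G.Adj x y)).card ≤
      ∑ x : α, (univ.filter (fun y => G.Adj x y)).card :=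
    sum_le_sum_of_subset (filter_subset _ _)
  have h3 : ∑ x : α, (univ.filter (fun y => G.Adj x y)).card = 2 * i := by
    have h4 := SimpleGraph.sum_degrees_eq_twice_card_edges G
    have h5 : G.edgeSet.ncard = G.edgeFinset.card := by
      rw [← SimpleGraph.coe_edgeFinset, Set.ncard_coe_finset]
    rw [← h5, hi] at h4
    rw [← h4]
    refine sum_congr rfl fun x _ => ?_
    rw [← SimpleGraph.card_neighborFinset_eq_degree]
    congr 1
    ext y
    simp
  omega

open Classical in
lemma card_goodPairs (G : SimpleGraph α) (Δ i H M : ℕ) (hi : G.edgeSet.ncard = i)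
    (hΔ : ∀ x, (univ.filter (fun y => G.Adj x y)).card ≤ Δ)
    (hH : 2 * i < (H + 1) * Δ)
    (hM : M + (Fintype.card α + 2 * i + 2 * (H * Fintype.card α) + Fintype.card α * Δ ^ 3) ≤
      Fintype.card α ^ 2) :
    M ≤ (goodPairs G Δ).card := by
  set u := Fintype.card α with hu
  let B1 : Finset (α × α) := univ.image (fun x => (x, x))
  let B2 : Finset (α × α) := univ.filter (fun p : α × α => G.Adj p.1 p.2)
  let Hi : Finset α := univ.filter (fun x : α => ¬ (univ.filter (fun y => G.Adj x y)).card < Δ)
  let B3 : Finset (α × α) := Hi ×ˢ univ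
  let B4 : Finset (α × α) := univ ×ˢ Hi
  let B5 : Finset (α × α) := univ.filter (fun p : α × α => Walk3 G p.1 p.2)
  have hcov : (univ : Finset (α × α)) ⊆ goodPairs G Δ ∪ (B1 ∪ B2 ∪ (B3 ∪ B4) ∪ B5) := by
    rintro ⟨x, y⟩ _
    by_contra hcon
    simp only [mem_union, not_or] at hcon
    obtain ⟨h0, ⟨⟨h1, h2⟩, h3, h4⟩, h5⟩ := hcon
    apply h0
    simp only [goodPairs, mem_filter, mem_univ, true_and]
    refine ⟨?_, ?_, ?_, ?_, ?_⟩
    · intro hxy
      apply h1
      subst hxy
      exact mem_image.2 ⟨x, mem_univ _, rfl⟩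
    · intro hxy
      exact h2 (mem_filter.2 ⟨mem_univ _, hxy⟩)
    · by_contra hxy
      exact h3 (mem_product.2 ⟨mem_filter.2 ⟨mem_univ _, hxy⟩, mem_univ _⟩)
    · by_contra hxy
      exact h4 (mem_product.2 ⟨mem_univ _, mem_filter.2 ⟨mem_univ _, hxy⟩⟩)
    · intro hxy
      exact h5 (mem_filter.2 ⟨mem_univ _, hxy⟩)
  have c0 : (univ : Finset (α × α)).card = u ^ 2 := by
    rw [card_univ, Fintype.card_prod, sq]
  have c1 : B1.card ≤ u := card_image_le.trans (by simp [hu])
  have c2 : B2.card = 2 * i := by rw [← hi]; exact card_adjPairs G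
  have cH : Hi.card ≤ H := card_high G Δ i H hi hH
  have c3 : B3.card ≤ H * u := by
    rw [card_product, card_univ]
    exact Nat.mul_le_mul_right _ cH
  have c4 : B4.card ≤ H * u := by
    rw [card_product, card_univ, mul_comm]
    exact Nat.mul_le_mul_right _ cH
  have c5 : B5.card ≤ u * Δ ^ 3 := card_walk3 G Δ hΔ
  have h1 := card_le_card hcov
  have h2 := card_union_le (goodPairs G Δ) (B1 ∪ B2 ∪ (B3 ∪ B4) ∪ B5)
  have h3 := card_union_le (B1 ∪ B2 ∪ (B3 ∪ B4)) B5
  have h4 := card_union_le (B1 ∪ B2) (B3 ∪ B4)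
  have h5 := card_union_le B1 B2
  have h6 := card_union_le B3 B4
  rw [c0] at h1
  omega

open Classical in
lemma addEdge_mem_fam {G : SimpleGraph α} {Δ i : ℕ} (hG : G ∈ fam α Δ i) {p : α × α}
    (hp : p ∈ goodPairs G Δ) (hne : p.1 ≠ p.2) :
    addEdge G p.1 p.2 hne ∈ fam α Δ (i + 1) := by
  simp only [fam, mem_filter, mem_univ, true_and] at hG ⊢
  simp only [goodPairs, mem_filter, mem_univ, true_and] at hp
  obtain ⟨hc4, hdeg, hi⟩ := hG
  obtain ⟨-, hnadj, hd1, hd2, hw⟩ := hp
  refine ⟨c4Free_addEdge hc4 hne hw, ?_, ?_⟩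
  · intro x
    by_cases hx1 : x = p.1
    · subst hx1
      have : (univ.filter (fun y => (addEdge G p.1 p.2 hne).Adj p.1 y)) ⊆
          insert p.2 (univ.filter (fun y => G.Adj p.1 y)) := by
        intro y hy
        obtain ⟨-, hy⟩ := mem_filter.1 hy; rw [addEdge_adj] at hy
        simp only [mem_insert, mem_filter, mem_univ, true_and]
        rcases hy with hy | hy | hy
        · exact Or.inr hy
        · exact Or.inl hy.2
        · exact absurd hy.1 hne
      refine (card_le_card this).trans ((card_insert_le _ _).trans ?_)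
      omega
    · by_cases hx2 : x = p.2
      · subst hx2
        have : (univ.filter (fun y => (addEdge G p.1 p.2 hne).Adj p.2 y)) ⊆
            insert p.1 (univ.filter (fun y => G.Adj p.2 y)) := by
          intro y hy
          obtain ⟨-, hy⟩ := mem_filter.1 hy; rw [addEdge_adj] at hy
          simp only [mem_insert, mem_filter, mem_univ, true_and]
          rcases hy with hy | hy | hy
          · exact Or.inr hy
          · exact absurd hy.1.symm hne
          · exact Or.inl hy.2
        refine (card_le_card this).trans ((card_insert_le _ _).trans ?_)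
        omega
      · have : (univ.filter (fun y => (addEdge G p.1 p.2 hne).Adj x y)) ⊆
            (univ.filter (fun y => G.Adj x y)) := by
          intro y hy
          obtain ⟨-, hy⟩ := mem_filter.1 hy; rw [addEdge_adj] at hy
          simp only [mem_filter, mem_univ, true_and]
          rcases hy with hy | hy | hy
          · exact hy
          · exact absurd hy.1 hx1
          · exact absurd hy.1 hx2
        exact (card_le_card this).trans (hdeg x)
  · rw [addEdge_edgeSet, Set.ncard_insert_of_notMem, hi]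
    simpa using hnadj

open Classical in
/-- One greedy step. -/
lemma fam_step (Δ i H M : ℕ)
    (hH : 2 * i < (H + 1) * Δ)
    (hM : M + (Fintype.card α + 2 * i + 2 * (H * Fintype.card α) + Fintype.card α * Δ ^ 3) ≤
      Fintype.card α ^ 2) :
    (fam α Δ i).card * M ≤ (fam α Δ (i + 1)).card * (2 * (i + 1)) := by
  -- pairs (G, p)
  have h1 : (fam α Δ i).card * M ≤ ((fam α Δ i).sigma (fun G => goodPairs G Δ)).card := by
    rw [card_sigma]
    calc (fam α Δ i).card * M = ∑ _G ∈ fam α Δ i, M := by rw [sum_const, smul_eq_mul]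
      _ ≤ _ := sum_le_sum fun G hG => by
        simp only [fam, mem_filter, mem_univ, true_and] at hG
        exact card_goodPairs G Δ i H M hG.2.2 hG.2.1 hH hM
  have h2 : ((fam α Δ (i + 1)).sigma
      (fun G => univ.filter (fun p : α × α => G.Adj p.1 p.2))).card =
      (fam α Δ (i + 1)).card * (2 * (i + 1)) := by
    rw [card_sigma]
    rw [← smul_eq_mul, ← sum_const]
    refine sum_congr rfl fun G hG => ?_
    simp only [fam, mem_filter, mem_univ, true_and] at hG
    rw [card_adjPairs, hG.2.2]
  rw [← h2]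
  refine h1.trans ?_
  let f : (_ : SimpleGraph α) × (α × α) → (_ : SimpleGraph α) × (α × α) := fun s =>
    if h : s.2.1 ≠ s.2.2 then ⟨addEdge s.1 s.2.1 s.2.2 h, s.2⟩ else s
  refine card_le_card_of_injOn f ?_ ?_
  · rintro ⟨G, p⟩ hs
    simp only [coe_sigma, Set.mem_sigma_iff, mem_coe] at hs
    obtain ⟨hG, hp⟩ := hs
    have hne : p.1 ≠ p.2 := by
      simp only [goodPairs, mem_filter, mem_univ, true_and] at hp
      exact hp.1
    simp only [f, hne, ne_eq, not_false_eq_true, dite_true]
    simp only [coe_sigma, Set.mem_sigma_iff, mem_coe]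
    refine ⟨addEdge_mem_fam hG hp hne, ?_⟩
    rw [mem_filter, addEdge_adj]
    exact ⟨mem_univ _, Or.inr (Or.inl ⟨rfl, rfl⟩)⟩
  · rintro ⟨G, p⟩ hs ⟨G', p'⟩ hs' heq
    simp only [coe_sigma, Set.mem_sigma_iff, mem_coe] at hs hs'
    obtain ⟨hG, hp⟩ := hs
    obtain ⟨hG', hp'⟩ := hs'
    simp only [goodPairs, mem_filter, mem_univ, true_and] at hp hp'
    have hne : p.1 ≠ p.2 := hp.1
    have hne' : p'.1 ≠ p'.2 := hp'.1
    simp only [f, hne, hne', ne_eq, not_false_eq_true, dite_true, Sigma.mk.injEq,
      heq_eq_eq] at heq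
    obtain ⟨hadd, hpp⟩ := heq
    subst hpp
    congr 1
    have hes : insert s(p.1, p.2) G.edgeSet = insert s(p.1, p.2) G'.edgeSet := by
      rw [← addEdge_edgeSet G p.1 p.2 hne, ← addEdge_edgeSet G' p.1 p.2 hne, hadd]
    have hn1 : s(p.1, p.2) ∉ G.edgeSet := by simpa using hp.2.1
    have hn2 : s(p.1, p.2) ∉ G'.edgeSet := by simpa using hp'.2.1
    have : G.edgeSet = G'.edgeSet := by
      have e1 : insert s(p.1, p.2) G.edgeSet \ {s(p.1, p.2)} = G.edgeSet := by
        rw [Set.insert_sdiff_of_mem _ (Set.mem_singleton _)]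
        exact Set.sdiff_singleton_eq_self hn1
      have e2 : insert s(p.1, p.2) G'.edgeSet \ {s(p.1, p.2)} = G'.edgeSet := by
        rw [Set.insert_sdiff_of_mem _ (Set.mem_singleton _)]
        exact Set.sdiff_singleton_eq_self hn2
      rw [← e1, ← e2, hes]
    exact SimpleGraph.edgeSet_inj.1 this

open Classical in
/-- The greedy bound: `M ^ t ≤ |fam t| * 2 ^ t * t!`. -/
theorem fam_card (Δ t H M : ℕ)
    (hH : 2 * t < (H + 1) * Δ)
    (hM : M + (Fintype.card α + 2 * t + 2 * (H * Fintype.card α) + Fintype.card α * Δ ^ 3) ≤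
      Fintype.card α ^ 2) :
    M ^ t ≤ (fam α Δ t).card * (2 ^ t * t.factorial) := by
  suffices h : ∀ i, i ≤ t → M ^ i ≤ (fam α Δ i).card * (2 ^ i * i.factorial) from h t le_rfl
  intro i
  induction i with
  | zero =>
    intro _
    simp only [pow_zero, Nat.factorial_zero, mul_one]
    refine card_pos.2 ⟨⊥, ?_⟩
    simp only [fam, mem_filter, mem_univ, true_and]
    refine ⟨?_, ?_, ?_⟩
    · intro a b c d _ _ h
      exact absurd h (by simp)
    · intro x
      simp
    · simp
  | succ i ih =>
    intro hi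
    have ih' := ih (by omega)
    have step := fam_step (α := α) Δ i H M (by omega) (by omega)
    calc M ^ (i + 1) = M ^ i * M := pow_succ _ _
      _ ≤ (fam α Δ i).card * (2 ^ i * i.factorial) * M := Nat.mul_le_mul_right _ ih'
      _ = (fam α Δ i).card * M * (2 ^ i * i.factorial) := by ring
      _ ≤ (fam α Δ (i + 1)).card * (2 * (i + 1)) * (2 ^ i * i.factorial) :=
        Nat.mul_le_mul_right _ step
      _ = (fam α Δ (i + 1)).card * (2 ^ (i + 1) * (i + 1).factorial) := by
        rw [Nat.factorial_succ, pow_succ]; ring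

end Counting

end Pool.Agent.J6H70.SplitC4
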