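import Pool.Agent.J6H70.SplitC4.Greedy

/-!
# Many hybrid graphs

Disjoint unions of a split graph and a graph without 4-cycles have no induced 4-cycle.
-/

set_option autoImplicit false

namespace Pool.Agent.J6H70.SplitC4

open Finset

section Hyb

variable {K W U : Type*}

/-- adjacency of the hybrid graph -/
def hybAdj (F : K → W → Prop) (H : SimpleGraph U) : (K ⊕ W) ⊕ U → (K ⊕ W) ⊕ U → Prop
  | Sum.inl (Sum.inl a), Sum.inl (Sum.inl b) => a ≠ b
  | Sum.inl (Sum.inl a), Sum.inl (Sum.inr b) => F a b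
  | Sum.inl (Sum.inr b), Sum.inl (Sum.inl a) => F a b
  | Sum.inr x, Sum.inr y => H.Adj x y
  | _, _ => False

/-- The hybrid graph: a clique on `K`, an independent set on `W`, the bipartite graph `F` between
them, and the graph `H` on the remaining vertices `U`. -/
def hyb (F : K → W → Prop) (H : SimpleGraph U) : SimpleGraph ((K ⊕ W) ⊕ U) where
  Adj := hybAdj F H
  symm := ⟨by
    rintro ((a | a) | a) ((b | b) | b) h
    · exact Ne.symm h
    · exact h
    · exact h
    · exact h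
    · exact h
    · exact h
    · exact h
    · exact h
    · exact H.symm.symm _ _ h⟩
  loopless := ⟨by
    rintro ((a | a) | a) h
    · exact h rfl
    · exact h
    · exact H.loopless.irrefl a h⟩

lemma hyb_noInducedC4 (F : K → W → Prop) (H : SimpleGraph U) (hH : C4Free H)
    (a b c d : (K ⊕ W) ⊕ U) (hac : a ≠ c) (hbd : b ≠ d) (h1 : (hyb F H).Adj a b)
    (h2 : (hyb F H).Adj b c) (h3 : (hyb F H).Adj c d) (h4 : (hyb F H).Adj d a) :
    (hyb F H).Adj a c ∨ (hyb F H).Adj b d := by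
  rcases a with ((a | a) | a) <;> rcases b with ((b | b) | b) <;>
    rcases c with ((c | c) | c) <;> rcases d with ((d | d) | d) <;>
    first
      | exact absurd h1 (fun h => h)
      | exact absurd h2 (fun h => h)
      | exact absurd h3 (fun h => h)
      | exact absurd h4 (fun h => h)
      | exact Or.inl (fun h => hac (by rw [h]))
      | exact Or.inr (fun h => hbd (by rw [h]))
      | exact absurd h4 (hH a b c d (fun h => hac (by rw [h])) (fun h => hbd (by rw [h])) h1 h2 h3)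

variable [Fintype K] [DecidableEq K] [Fintype W] [DecidableEq W] [Fintype U] [DecidableEq U]

open Classical in
lemma hyb_pairs (F : Finset (K × W)) (H : SimpleGraph U) :
    (univ.filter (fun p : ((K ⊕ W) ⊕ U) × ((K ⊕ W) ⊕ U) =>
      (hyb (fun a b => (a, b) ∈ F) H).Adj p.1 p.2)).card =
      Fintype.card K * (Fintype.card K - 1) + 2 * F.card + 2 * H.edgeSet.ncard := by
  rw [card_filter, ← univ_product_univ, sum_product]
  simp only [Fintype.sum_sum_type]
  have e1 : ∀ a b : K, (hyb (fun a b => (a, b) ∈ F) H).Adj (Sum.inl (Sum.inl a))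
      (Sum.inl (Sum.inl b)) ↔ a ≠ b := fun a b => Iff.rfl
  have e2 : ∀ (a : K) (b : W), (hyb (fun a b => (a, b) ∈ F) H).Adj (Sum.inl (Sum.inl a))
      (Sum.inl (Sum.inr b)) ↔ (a, b) ∈ F := fun a b => Iff.rfl
  have e3 : ∀ (a : K) (b : W), (hyb (fun a b => (a, b) ∈ F) H).Adj (Sum.inl (Sum.inr b))
      (Sum.inl (Sum.inl a)) ↔ (a, b) ∈ F := fun a b => Iff.rfl
  have e4 : ∀ (a b : W), (hyb (fun a b => (a, b) ∈ F) H).Adj (Sum.inl (Sum.inr b))
      (Sum.inl (Sum.inr a)) ↔ False := fun a b => Iff.rfl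
  have e5 : ∀ (a : K) (b : U), (hyb (fun a b => (a, b) ∈ F) H).Adj (Sum.inl (Sum.inl a))
      (Sum.inr b) ↔ False := fun a b => Iff.rfl
  have e6 : ∀ (a : K) (b : U), (hyb (fun a b => (a, b) ∈ F) H).Adj (Sum.inr b)
      (Sum.inl (Sum.inl a)) ↔ False := fun a b => Iff.rfl
  have e7 : ∀ (a : W) (b : U), (hyb (fun a b => (a, b) ∈ F) H).Adj (Sum.inl (Sum.inr a))
      (Sum.inr b) ↔ False := fun a b => Iff.rfl
  have e8 : ∀ (a : W) (b : U), (hyb (fun a b => (a, b) ∈ F) H).Adj (Sum.inr b)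
      (Sum.inl (Sum.inr a)) ↔ False := fun a b => Iff.rfl
  have e9 : ∀ (a : U) (b : U), (hyb (fun a b => (a, b) ∈ F) H).Adj (Sum.inr a)
      (Sum.inr b) ↔ H.Adj a b := fun a b => Iff.rfl
  simp only [e1, e2, e3, e4, e5, e6, e7, e8, e9, if_false, sum_const_zero, add_zero, zero_add]
  have s1 : ∑ x : K, ∑ y : K, (if x ≠ y then 1 else 0 : ℕ) =
      Fintype.card K * (Fintype.card K - 1) := by
    have : ∀ x : K, ∑ y : K, (if x ≠ y then 1 else 0 : ℕ) = Fintype.card K - 1 := by
      intro x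
      rw [← card_filter]
      have : (univ.filter (fun y => x ≠ y)) = univ.erase x := by
        ext y
        simp [eq_comm]
      rw [this, card_erase_of_mem (mem_univ _), card_univ]
    rw [sum_congr rfl (fun x _ => this x), sum_const, card_univ, smul_eq_mul]
  have s2 : ∑ x : K, ∑ y : W, (if (x, y) ∈ F then 1 else 0 : ℕ) = F.card := by
    rw [← sum_product', univ_product_univ, ← card_filter]
    congr 1
    ext p
    simp
  have s3 : ∑ y : W, ∑ x : K, (if (x, y) ∈ F then 1 else 0 : ℕ) = F.card := by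
    rw [sum_comm, s2]
  have s4 : ∑ x : U, ∑ y : U, (if H.Adj x y then 1 else 0 : ℕ) = 2 * H.edgeSet.ncard := by
    rw [← card_adjPairs H, card_filter, ← univ_product_univ, sum_product]
  rw [sum_add_distrib, s1, s2, s3, s4]
  ring

/-- transported to `Fin n` -/
noncomputable def hybFin {n : ℕ} (e : Fin n ≃ (K ⊕ W) ⊕ U) (F : Finset (K × W))
    (H : SimpleGraph U) : SimpleGraph (Fin n) :=
  (hyb (fun a b => (a, b) ∈ F) H).comap e

open Classical in
lemma hybFin_edges {n : ℕ} (e : Fin n ≃ (K ⊕ W) ⊕ U) (F : Finset (K × W))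
    (H : SimpleGraph U) : 2 * (hybFin e F H).edgeSet.ncard =
      Fintype.card K * (Fintype.card K - 1) + 2 * F.card + 2 * H.edgeSet.ncard := by
  rw [← hyb_pairs F H, ← card_adjPairs]
  refine card_bij (fun p _ => (e p.1, e p.2)) ?_ ?_ ?_
  · rintro ⟨x, y⟩ h
    obtain ⟨-, h⟩ := mem_filter.1 h
    exact mem_filter.2 ⟨mem_univ _, h⟩
  · rintro ⟨x, y⟩ h ⟨x', y'⟩ h' heq
    simp only [Prod.mk.injEq, EmbeddingLike.apply_eq_iff_eq] at heq
    rw [heq.1, heq.2]
  · rintro ⟨x, y⟩ h
    obtain ⟨-, h⟩ := mem_filter.1 h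
    refine ⟨(e.symm x, e.symm y), mem_filter.2 ⟨mem_univ _, ?_⟩, by simp⟩
    show (hyb (fun a b => (a, b) ∈ F) H).Adj (e (e.symm x)) (e (e.symm y))
    rw [e.apply_symm_apply, e.apply_symm_apply]
    exact h

lemma hybFin_inj {n : ℕ} (e : Fin n ≃ (K ⊕ W) ⊕ U) (F F' : Finset (K × W))
    (H H' : SimpleGraph U) (h : hybFin e F H = hybFin e F' H') : F = F' ∧ H = H' := by
  have key : ∀ x y, (hyb (fun a b => (a, b) ∈ F) H).Adj x y ↔
      (hyb (fun a b => (a, b) ∈ F') H').Adj x y := by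
    intro x y
    have h1 : (hybFin e F H).Adj (e.symm x) (e.symm y) ↔
      (hybFin e F' H').Adj (e.symm x) (e.symm y) := by rw [h]
    have h2 : (hyb (fun a b => (a, b) ∈ F) H).Adj (e (e.symm x)) (e (e.symm y)) ↔
      (hyb (fun a b => (a, b) ∈ F') H').Adj (e (e.symm x)) (e (e.symm y)) := h1
    rwa [e.apply_symm_apply, e.apply_symm_apply] at h2
  constructor
  · ext ⟨a, b⟩
    exact key (Sum.inl (Sum.inl a)) (Sum.inl (Sum.inr b))
  · ext x y
    exact key (Sum.inr x) (Sum.inr y)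

end Hyb

/-- Number of hybrid graphs. -/
theorem hybrid_lower (n k w u Δ t e1 m : ℕ) (hn : k + w + u = n)
    (hm : 2 * m = k * (k - 1) + 2 * e1 + 2 * t) (A : Set (SimpleGraph (Fin n)))
    (hA : ∀ G : SimpleGraph (Fin n), G.edgeSet.ncard = m →
      (∀ a b c d : Fin n, a ≠ c → b ≠ d → G.Adj a b → G.Adj b c → G.Adj c d →
              G.Adj d a → G.Adj a c ∨ G.Adj b d) → G ∈ A) :
    (k * w).choose e1 * (fam (Fin u) Δ t).card ≤ A.ncard := by
  classical
  have e0 : Fin n ≃ (Fin k ⊕ Fin w) ⊕ Fin u := by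
    refine Fintype.equivOfCardEq ?_
    simp [hn]
  let S : Finset (Finset (Fin k × Fin w) × SimpleGraph (Fin u)) :=
    ((univ : Finset (Fin k × Fin w)).powersetCard e1) ×ˢ fam (Fin u) Δ t
  have hS : S.card = (k * w).choose e1 * (fam (Fin u) Δ t).card := by
    rw [card_product, card_powersetCard, card_univ, Fintype.card_prod, Fintype.card_fin,
      Fintype.card_fin]
  rw [← hS, ← Set.ncard_coe_finset S]
  refine Set.ncard_le_ncard_of_injOn (fun p => hybFin e0 p.1 p.2) ?_ ?_ (Set.toFinite _)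
  · rintro ⟨F, H⟩ h
    rw [mem_coe, mem_product, mem_powersetCard] at h
    obtain ⟨⟨-, hF⟩, hH⟩ := h
    simp only [fam, mem_filter, mem_univ, true_and] at hH
    refine hA _ ?_ ?_
    · have := hybFin_edges e0 F H
      rw [hF, hH.2.2, Fintype.card_fin] at this
      simp only
      omega
    · intro a b c d hac hbd h1 h2 h3 h4
      exact hyb_noInducedC4 _ H hH.1 (e0 a) (e0 b) (e0 c) (e0 d)
        (fun h => hac (e0.injective h)) (fun h => hbd (e0.injective h)) h1 h2 h3 h4
  · rintro ⟨F, H⟩ _ ⟨F', H'⟩ _ h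
    obtain ⟨h1, h2⟩ := hybFin_inj e0 F F' H H' h
    rw [h1, h2]

end Pool.Agent.J6H70.SplitC4
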