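import Pool.Agent.J6H70.SplitC4.Upper
import Pool.Agent.J6H70.SplitC4.Hybrid

/-!
# Hybrid graphs outnumber split graphs

For `n = 2 ^ (3 s + 3)` and `m = 2 ^ (4 s + 4 + 2 v)` edges, where `s = 16 ^ v` and `v ≥ 6`, at most
half of the graphs without induced 4-cycle are split.
-/

set_option autoImplicit false

namespace Pool.Agent.J6H70.SplitC4

open Finset

lemma pow_sixteen_ge (v : ℕ) (hv : 6 ≤ v) : 64 * (6 + 3 * v) ≤ 2 ^ (2 * v) := by
  induction v, hv using Nat.le_induction with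
  | base => norm_num
  | succ v _ ih =>
    have : 2 ^ (2 * (v + 1)) = 4 * 2 ^ (2 * v) := by ring
    rw [this]
    omega

lemma v_lt_pow (v : ℕ) (hv : 6 ≤ v) : 3 * v + 6 ≤ 2 ^ (4 * v) := by
  have h1 := pow_sixteen_ge v hv
  have h2 : 2 ^ (2 * v) ≤ 2 ^ (4 * v) := Nat.pow_le_pow_right (by norm_num) (by omega)
  omega

/-- Lower bound for the number of 4-cycle free graphs with our parameters. -/
lemma fam_lower (s : ℕ) (hs : 1 ≤ s) :
    2 ^ ((2 * s + 3) * 2 ^ (4 * s - 2)) ≤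
      (fam (Fin (2 ^ (3 * s + 2))) (2 ^ s) (2 ^ (4 * s - 2))).card := by
  set t := 2 ^ (4 * s - 2) with ht
  have e1 : 2 * t = 2 ^ (3 * s - 1) * 2 ^ s := by
    rw [ht, ← pow_succ', ← pow_add]
    congr 1
    omega
  have hpos : 0 < 2 ^ s := by positivity
  have h1 := fam_card (α := Fin (2 ^ (3 * s + 2))) (2 ^ s) t (2 ^ (3 * s - 1)) (2 ^ (6 * s + 2))
    (by rw [e1, Nat.add_mul, Nat.one_mul]; omega)
    (by
      rw [Fintype.card_fin]
      have a1 : (2 ^ (3 * s + 2)) ^ 2 = 4 * 2 ^ (6 * s + 2) := by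
        rw [← pow_mul, show (4 : ℕ) = 2 ^ 2 by norm_num, ← pow_add]
        congr 1; ring
      have a2 : 2 * (2 ^ (3 * s - 1) * 2 ^ (3 * s + 2)) = 2 ^ (6 * s + 2) := by
        rw [← pow_add, ← pow_succ']
        congr 1; omega
      have a3 : 2 ^ (3 * s + 2) * (2 ^ s) ^ 3 = 2 ^ (6 * s + 2) := by
        rw [← pow_mul, ← pow_add]
        congr 1; ring
      have a4 : 2 * t = 2 ^ (4 * s - 1) := by
        rw [ht, ← pow_succ']
        congr 1; omega
      have a5 : 2 ^ (3 * s + 2) ≤ 2 ^ (6 * s + 1) := Nat.pow_le_pow_right (by norm_num) (by omega)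
      have a6 : 2 ^ (4 * s - 1) ≤ 2 ^ (6 * s + 1) := Nat.pow_le_pow_right (by norm_num) (by omega)
      have a7 : 2 ^ (6 * s + 2) = 2 * 2 ^ (6 * s + 1) := by rw [← pow_succ']
      rw [a1, a2, a3, a4]
      omega)
  have h2 : t.factorial ≤ 2 ^ ((4 * s - 2) * t) := by
    refine (Nat.factorial_le_pow t).trans ?_
    rw [pow_mul]
  have h3 : (2 ^ (6 * s + 2)) ^ t = 2 ^ ((2 * s + 3) * t) * (2 ^ t * 2 ^ ((4 * s - 2) * t)) := by
    rw [← pow_mul, ← pow_add, ← pow_add]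
    congr 1
    have : 6 * s + 2 = 2 * s + 3 + (1 + (4 * s - 2)) := by omega
    rw [this]
    ring
  rw [h3] at h1
  have h4 : 2 ^ ((2 * s + 3) * t) * (2 ^ t * 2 ^ ((4 * s - 2) * t)) ≤
      (fam (Fin (2 ^ (3 * s + 2))) (2 ^ s) t).card * (2 ^ t * 2 ^ ((4 * s - 2) * t)) :=
    h1.trans (Nat.mul_le_mul_left _ (Nat.mul_le_mul_left _ h2))
  exact Nat.le_of_mul_le_mul_right h4 (by positivity)

/-- A crude lower bound for binomial coefficients. -/
lemma choose_lower (B e m a : ℕ) (hem : e ≤ m) (hm : 1 ≤ m) (hB : a * m + e ≤ B) :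
    a ^ e ≤ B.choose e := by
  have h1 := Nat.pow_le_choose (α := ℝ) e B
  have h2 : (a * m : ℝ) ^ e ≤ ((B + 1 - e : ℕ) : ℝ) ^ e := by
    refine pow_le_pow_left₀ (by positivity) ?_ e
    have : a * m ≤ B + 1 - e := by omega
    exact_mod_cast this
  have h3 : (e.factorial : ℝ) ≤ (m : ℝ) ^ e := by
    have : e.factorial ≤ m ^ e := (Nat.factorial_le_pow e).trans (Nat.pow_le_pow_left hem e)
    exact_mod_cast this
  have h4 : (0 : ℝ) < (e.factorial : ℝ) := by exact_mod_cast e.factorial_pos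
  have hm' : (0 : ℝ) < m := by exact_mod_cast hm
  have h5 : (a : ℝ) ^ e ≤ (B.choose e : ℝ) := by
    calc (a : ℝ) ^ e = (a * m : ℝ) ^ e / (m : ℝ) ^ e := by
          rw [mul_pow]; field_simp
      _ ≤ (a * m : ℝ) ^ e / (e.factorial : ℝ) := by
          refine div_le_div_of_nonneg_left (by positivity) h4 h3
      _ ≤ ((B + 1 - e : ℕ) : ℝ) ^ e / (e.factorial : ℝ) := by gcongr
      _ ≤ (B.choose e : ℝ) := h1
  exact_mod_cast h5

/-- The arithmetic inequality between exponents. -/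
lemma exponent_ineq (v s t m k e1 n : ℕ) (hv : 6 ≤ v) (hs : s = 2 ^ (4 * v))
    (hm : m = 2 ^ (2 * v + 6) * t) (hk : s * (k * k) = m)
    (he : 2 * m = k * (k - 1) + 2 * e1 + 2 * t) (hn : 2 * n + 2 ≤ m) :
    1 + n + (s + 3) * m ≤ (s - 2 - 3 * v) * e1 + (2 * s + 3) * t := by
  have h1 := pow_sixteen_ge v hv
  have h2 := v_lt_pow v hv
  rw [← hs] at h2
  obtain ⟨a, ha⟩ : ∃ a, s = a + (2 + 3 * v) := ⟨s - (2 + 3 * v), by omega⟩
  have ha' : s - 2 - 3 * v = a := by omega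
  rw [ha']
  -- s * t is large
  have h3 : (64 * (6 + 3 * v)) * (2 ^ (2 * v) * t) ≤ 2 ^ (2 * v) * (2 ^ (2 * v) * t) :=
    Nat.mul_le_mul_right _ h1
  have h4 : 2 ^ (2 * v) * (2 ^ (2 * v) * t) = s * t := by
    rw [hs, ← mul_assoc, ← pow_add]
    congr 2
    ring
  have h5 : m = 64 * (2 ^ (2 * v) * t) := by
    rw [hm, pow_add]; ring
  have h6 : (6 + 3 * v) * m ≤ s * t := by
    rw [h5, ← h4]
    calc (6 + 3 * v) * (64 * (2 ^ (2 * v) * t)) = (64 * (6 + 3 * v)) * (2 ^ (2 * v) * t) := by ring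
      _ ≤ _ := h3
  have h7 : k * (k - 1) ≤ k * k := Nat.mul_le_mul_left _ (by omega)
  have h8 : 2 * m ≤ k * k + 2 * e1 + 2 * t := by omega
  have h9 : a * (2 * m) ≤ a * (k * k + 2 * e1 + 2 * t) := Nat.mul_le_mul_left _ h8
  have h10 : a * (k * k) ≤ m := by
    rw [← hk]
    exact Nat.mul_le_mul_right _ (by omega)
  have h11 : a * t ≤ s * t := Nat.mul_le_mul_right _ (by omega)
  subst ha
  nlinarith

theorem half_bound (v : ℕ) (hv : 6 ≤ v) (n m : ℕ) (hn : n = 2 ^ (3 * 2 ^ (4 * v) + 3))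
    (hm : m = 2 ^ (4 * 2 ^ (4 * v) + 4 + 2 * v))
    (A B : Set (SimpleGraph (Fin n)))
    (hA : ∀ G ∈ A, G.edgeSet.ncard = m ∧ ∃ S : Set (Fin n),
      (∀ u ∈ S, ∀ v ∈ S, u ≠ v → G.Adj u v) ∧
      (∀ u, u ∉ S → ∀ v, v ∉ S → ¬ G.Adj u v))
    (hB : ∀ G : SimpleGraph (Fin n), G.edgeSet.ncard = m →
      (∀ a b c d : Fin n, a ≠ c → b ≠ d → G.Adj a b → G.Adj b c → G.Adj c d →
              G.Adj d a → G.Adj a c ∨ G.Adj b d) → G ∈ B) :
    2 * (A.ncard : ℝ) ≤ (B.ncard : ℝ) := by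
  obtain ⟨s, hs⟩ : ∃ s, s = 2 ^ (4 * v) := ⟨_, rfl⟩
  rw [← hs] at hn hm
  have hvs := v_lt_pow v hv
  rw [← hs] at hvs
  obtain ⟨u, hu⟩ : ∃ u, u = 2 ^ (3 * s + 2) := ⟨_, rfl⟩
  obtain ⟨t, ht⟩ : ∃ t, t = 2 ^ (4 * s - 2) := ⟨_, rfl⟩
  obtain ⟨k, hk⟩ : ∃ k, k = 2 ^ (2 * s + 2 - v) := ⟨_, rfl⟩
  have hnu : n = 2 * u := by rw [hn, hu, ← pow_succ']
  have hmt : m = 2 ^ (2 * v + 6) * t := by
    rw [hm, ht, ← pow_add]; congr 1; omega
  have hkk : s * (k * k) = m := by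
    conv_lhs => rw [hs]
    rw [hk, ← pow_add, ← pow_add, hm]
    congr 1
    omega
  have hku : 2 * k ≤ u := by
    rw [hk, hu, ← pow_succ']
    exact Nat.pow_le_pow_right (by norm_num) (by omega)
  -- number of edges
  have hkkm : k * (k - 1) ≤ m := by
    calc k * (k - 1) ≤ k * k := Nat.mul_le_mul_left _ (by omega)
      _ = 1 * (k * k) := by ring
      _ ≤ s * (k * k) := Nat.mul_le_mul_right _ (by omega)
      _ = m := hkk
  have htm : 2 * t ≤ m := by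
    rw [hmt]
    refine Nat.mul_le_mul_right _ ?_
    calc 2 = 2 ^ 1 := by norm_num
      _ ≤ _ := Nat.pow_le_pow_right (by norm_num) (by omega)
  have hev : Even (k * (k - 1)) := by
    rw [mul_comm]
    exact Nat.even_mul_pred_self k |> fun h => by rwa [mul_comm] at h
  obtain ⟨kk, hkk2⟩ := hev
  obtain ⟨e1, he1⟩ : ∃ e1, 2 * m = k * (k - 1) + 2 * e1 + 2 * t := ⟨m - t - kk, by omega⟩
  have he1m : e1 ≤ m := by omega
  have hm1 : 1 ≤ m := by rw [hm]; exact Nat.one_le_two_pow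
  have hupper := split_upper (V := Fin n) (2 ^ (s + 1)) (2 ^ (2 * s + 2)) m Nat.one_le_two_pow
    (by rw [Fintype.card_fin, hn, ← pow_add]; congr 1; ring) hm1
    (by
      rw [hm, ← pow_mul, show (4 : ℕ) = 2 ^ 2 by norm_num, ← pow_add]
      refine Nat.pow_le_pow_right (by norm_num) ?_
      have : (2 * s + 2) * 2 = 4 * s + 4 := by ring
      rw [this]
      have : 2 ^ 2 * s = 4 * s := by norm_num
      rw [this]
      omega) A hA
  have hlower := hybrid_lower n k (u - k) u (2 ^ s) t e1 m (by omega) he1 B hB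
  have hfam := fam_lower s (by omega)
  rw [← hu, ← ht] at hfam
  have hch : (2 ^ (s - 2 - 3 * v)) ^ e1 ≤ (k * (u - k)).choose e1 := by
    refine choose_lower _ e1 m _ he1m hm1 ?_
    have h1 : 2 ^ (s - 2 - 3 * v) * m + m ≤ k * 2 ^ (3 * s + 1) := by
      have a1 : 2 ^ (s - 2 - 3 * v) * m = 2 ^ (5 * s + 2 - v) := by
        rw [hm, ← pow_add]; congr 1; omega
      have a2 : k * 2 ^ (3 * s + 1) = 2 * 2 ^ (5 * s + 2 - v) := by
        rw [hk, ← pow_add, ← pow_succ']; congr 1; omega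
      have a3 : m ≤ 2 ^ (5 * s + 2 - v) := by
        rw [hm]
        exact Nat.pow_le_pow_right (by norm_num) (by omega)
      rw [a1, a2]
      omega
    have h2 : k * 2 ^ (3 * s + 1) ≤ k * (u - k) := by
      refine Nat.mul_le_mul_left _ ?_
      have : u = 2 * 2 ^ (3 * s + 1) := by rw [hu, ← pow_succ']
      omega
    omega
  have hexp := exponent_ineq v s t m k e1 n hv hs hmt hkk he1 (by
    have h1 : n ≤ 2 ^ (4 * s + 1) := by
      rw [hn]; exact Nat.pow_le_pow_right (by norm_num) (by omega)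
    have h2 : 8 * 2 ^ (4 * s + 1) ≤ m := by
      rw [hm, show (8 : ℕ) = 2 ^ 3 by norm_num, ← pow_add]
      exact Nat.pow_le_pow_right (by norm_num) (by omega)
    have h3 : 1 ≤ 2 ^ (4 * s + 1) := Nat.one_le_two_pow
    omega)
  -- combine
  have hB1 : 2 ^ ((s - 2 - 3 * v) * e1 + (2 * s + 3) * t) ≤ B.ncard := by
    calc 2 ^ ((s - 2 - 3 * v) * e1 + (2 * s + 3) * t)
        = (2 ^ (s - 2 - 3 * v)) ^ e1 * 2 ^ ((2 * s + 3) * t) := by rw [pow_add, pow_mul]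
      _ ≤ (k * (u - k)).choose e1 * (fam (Fin u) (2 ^ s) t).card := Nat.mul_le_mul hch hfam
      _ ≤ B.ncard := hlower
  have hB2 : (2 : ℝ) ^ (1 + n + (s + 3) * m) ≤ (B.ncard : ℝ) := by
    have : 2 ^ (1 + n + (s + 3) * m) ≤ B.ncard :=
      (Nat.pow_le_pow_right (by norm_num) hexp).trans hB1
    exact_mod_cast this
  have hA2 : (A.ncard : ℝ) ≤ (2 : ℝ) ^ (n + (s + 3) * m) := by
    refine hupper.trans (le_of_eq ?_)
    have h4 : (4 * ((2 ^ (s + 1) : ℕ) : ℝ)) = 2 ^ (s + 3) := by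
      push_cast
      ring
    rw [Fintype.card_fin, h4, ← pow_mul, ← pow_add]
  calc 2 * (A.ncard : ℝ) ≤ 2 * (2 : ℝ) ^ (n + (s + 3) * m) := by linarith
    _ = (2 : ℝ) ^ (1 + n + (s + 3) * m) := by rw [add_assoc, pow_add]; ring
    _ ≤ _ := hB2

end Pool.Agent.J6H70.SplitC4
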