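import Pool.Agent.J6H70.SplitC4.Greedy

/-!
# Few split graphs

An upper bound for the number of split graphs with a given number of edges.
-/

set_option autoImplicit false

namespace Pool.Agent.J6H70.SplitC4

open Finset

section Upper

variable {V : Type*} [Fintype V] [DecidableEq V]

open Classical in
/-- graphs with `m` edges in which `S` is a clique and the complement of `S` is independent -/
noncomputable def splitFam (S : Finset V) (m : ℕ) : Finset (SimpleGraph V) :=
  univ.filter (fun G : SimpleGraph V => G.edgeSet.ncard = m ∧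
    (∀ u ∈ S, ∀ v ∈ S, u ≠ v → G.Adj u v) ∧ (∀ u, u ∉ S → ∀ v, v ∉ S → ¬ G.Adj u v))

open Classical in
/-- the cross edges -/
noncomputable def cross (S : Finset V) (G : SimpleGraph V) : Finset (V × V) :=
  (S ×ˢ Sᶜ).filter (fun p => G.Adj p.1 p.2)

lemma clique_size {S : Finset V} {m : ℕ} {G : SimpleGraph V} (hG : G ∈ splitFam S m) :
    S.card * (S.card - 1) ≤ 2 * m := by
  classical
  simp only [splitFam, mem_filter, mem_univ, true_and] at hG
  have h1 : S.offDiag ⊆ univ.filter (fun p : V × V => G.Adj p.1 p.2) := by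
    rintro ⟨x, y⟩ h
    rw [mem_offDiag] at h
    rw [mem_filter]
    exact ⟨mem_univ _, hG.2.1 x h.1 y h.2.1 h.2.2⟩
  have h2 := card_le_card h1
  rw [offDiag_card, card_adjPairs, hG.1] at h2
  calc S.card * (S.card - 1) = S.card * S.card - S.card := by
        rw [Nat.mul_sub, Nat.mul_one]
    _ ≤ 2 * m := h2

lemma cross_card {S : Finset V} {m : ℕ} {G : SimpleGraph V} (hG : G ∈ splitFam S m) :
    (cross S G).card ≤ m := by
  classical
  simp only [splitFam, mem_filter, mem_univ, true_and] at hG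
  rw [← hG.1, ← SimpleGraph.coe_edgeFinset, Set.ncard_coe_finset]
  refine card_le_card_of_injOn (fun p => s(p.1, p.2)) ?_ ?_
  · rintro ⟨x, y⟩ h
    simp only [cross, coe_filter, mem_product, mem_compl, Set.mem_setOf_eq] at h
    simpa using h.2
  · rintro ⟨x, y⟩ h ⟨x', y'⟩ h' heq
    simp only [cross, coe_filter, mem_product, mem_compl, Set.mem_setOf_eq] at h h'
    simp only [Sym2.eq_iff] at heq
    rcases heq with heq | heq
    · rw [heq.1, heq.2]
    · exact absurd (heq.1 ▸ h.1.1) h'.1.2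

lemma cross_inj {S : Finset V} {m : ℕ} {G G' : SimpleGraph V} (hG : G ∈ splitFam S m)
    (hG' : G' ∈ splitFam S m) (h : cross S G = cross S G') : G = G' := by
  classical
  simp only [splitFam, mem_filter, mem_univ, true_and] at hG hG'
  have key : ∀ x y, x ∈ S → y ∉ S → (G.Adj x y ↔ G'.Adj x y) := by
    intro x y hx hy
    have h1 : (x, y) ∈ cross S G ↔ (x, y) ∈ cross S G' := by rw [h]
    simpa [cross, hx, hy] using h1
  ext x y
  by_cases hx : x ∈ S
  · by_cases hy : y ∈ S
    · by_cases hxy : x = y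
      · subst hxy
        simp
      · exact ⟨fun _ => hG'.2.1 x hx y hy hxy, fun _ => hG.2.1 x hx y hy hxy⟩
    · exact key x y hx hy
  · by_cases hy : y ∈ S
    · rw [G.adj_comm, G'.adj_comm]
      exact key y x hy hx
    · exact ⟨fun h' => absurd h' (hG.2.2 x hx y hy), fun h' => absurd h' (hG'.2.2 x hx y hy)⟩

/-- Weighted count of small subsets. -/
lemma small_subsets {β : Type*} [DecidableEq β] (T : Finset β) (N m : ℕ) (hN : 1 ≤ N) :
    N ^ T.card * (T.powerset.filter (fun F => F.card ≤ m)).card ≤ N ^ m * (N + 1) ^ T.card := by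
  have h1 := Finset.sum_pow_mul_eq_add_pow 1 N T
  calc N ^ T.card * (T.powerset.filter (fun F => F.card ≤ m)).card
      = ∑ _F ∈ T.powerset.filter (fun F => F.card ≤ m), N ^ T.card := by
        rw [sum_const, smul_eq_mul, mul_comm]
    _ ≤ ∑ F ∈ T.powerset.filter (fun F => F.card ≤ m), N ^ m * N ^ (T.card - F.card) := by
        refine sum_le_sum fun F hF => ?_
        rw [mem_filter] at hF
        rw [← pow_add]
        exact Nat.pow_le_pow_right hN (by omega)
    _ ≤ ∑ F ∈ T.powerset, N ^ m * N ^ (T.card - F.card) :=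
        sum_le_sum_of_subset (filter_subset _ _)
    _ = N ^ m * (N + 1) ^ T.card := by
        rw [← mul_sum, add_comm N 1, ← h1]
        congr 1
        refine sum_congr rfl fun F _ => ?_
        rw [one_pow, one_mul]

lemma one_add_inv_pow_le (N : ℕ) (hN : 1 ≤ N) : (1 + 1 / (N : ℝ)) ^ N ≤ 4 := by
  have hN' : (0 : ℝ) < N := by exact_mod_cast hN
  have h1 : 1 + 1 / (N : ℝ) ≤ Real.exp (1 / N) := by
    have := Real.add_one_le_exp (1 / (N : ℝ))
    linarith
  have h2 : (1 + 1 / (N : ℝ)) ^ N ≤ Real.exp (1 / N) ^ N :=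
    pow_le_pow_left₀ (by positivity) h1 N
  have h3 : Real.exp (1 / (N : ℝ)) ^ N = Real.exp 1 := by
    rw [← Real.exp_nat_mul]
    congr 1
    field_simp
  have h4 := Real.exp_one_lt_d9
  rw [h3] at h2
  linarith

/-- Bound for a fixed clique part. -/
lemma splitFam_card (S : Finset V) (N P m : ℕ) (hN : 1 ≤ N) (hn : Fintype.card V = N * P)
    (hm0 : 1 ≤ m) (hm : 4 * P ^ 2 ≤ m) : ((splitFam S m).card : ℝ) ≤ (4 * N : ℝ) ^ m := by
  classical
  rcases (splitFam S m).eq_empty_or_nonempty with he | ⟨G, hG⟩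
  · rw [he]
    simp only [card_empty, Nat.cast_zero]
    positivity
  have hs := clique_size hG
  set k := S.card with hk
  have hkP : k * P ≤ m := by
    by_contra hcon
    rw [not_le] at hcon
    have h1 : 4 * P < k := by
      by_contra h
      rw [not_lt] at h
      have : k * P ≤ 4 * P * P := Nat.mul_le_mul_right _ h
      nlinarith
    have h2 : 4 * P ≤ k - 1 := by omega
    have h3 : k * (4 * P) ≤ k * (k - 1) := Nat.mul_le_mul_left _ h2
    nlinarith
  set T : Finset (V × V) := S ×ˢ Sᶜ with hT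
  have hTc : T.card ≤ N * m := by
    rw [hT, card_product, ← hk]
    calc k * (Sᶜ).card ≤ k * Fintype.card V := Nat.mul_le_mul_left _ (card_le_univ _)
      _ = N * (k * P) := by rw [hn]; ring
      _ ≤ N * m := Nat.mul_le_mul_left _ hkP
  have h1 : (splitFam S m).card ≤ (T.powerset.filter (fun F => F.card ≤ m)).card := by
    refine card_le_card_of_injOn (cross S) ?_ ?_
    · intro G' hG'
      rw [mem_coe] at hG' 
      rw [mem_coe, mem_filter, mem_powerset]
      exact ⟨filter_subset _ _, cross_card hG'⟩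
    · intro G1 h1 G2 h2 h12
      exact cross_inj h1 h2 h12
  have h2 := small_subsets T N m hN
  have hN' : (0 : ℝ) < N := by exact_mod_cast hN
  have h3 : ((T.powerset.filter (fun F => F.card ≤ m)).card : ℝ) ≤
      (N : ℝ) ^ m * (1 + 1 / (N : ℝ)) ^ T.card := by
    have h2' : (N : ℝ) ^ T.card * ((T.powerset.filter (fun F => F.card ≤ m)).card : ℝ) ≤
        (N : ℝ) ^ m * ((N : ℝ) + 1) ^ T.card := by exact_mod_cast h2
    have h4 : ((N : ℝ) + 1) ^ T.card = (N : ℝ) ^ T.card * (1 + 1 / (N : ℝ)) ^ T.card := by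
      rw [← mul_pow]
      congr 1
      field_simp
    rw [h4] at h2'
    have h5 : (0 : ℝ) < (N : ℝ) ^ T.card := by positivity
    have h6 : (N : ℝ) ^ T.card * ((T.powerset.filter (fun F => F.card ≤ m)).card : ℝ) ≤
        (N : ℝ) ^ T.card * ((N : ℝ) ^ m * (1 + 1 / (N : ℝ)) ^ T.card) := by
      calc _ ≤ _ := h2'
        _ = _ := by ring
    exact le_of_mul_le_mul_left h6 h5
  have h4 : (1 + 1 / (N : ℝ)) ^ T.card ≤ 4 ^ m := by
    calc (1 + 1 / (N : ℝ)) ^ T.card ≤ (1 + 1 / (N : ℝ)) ^ (N * m) := by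
          refine pow_le_pow_right₀ ?_ hTc
          have : (0 : ℝ) ≤ 1 / (N : ℝ) := by positivity
          linarith
      _ = ((1 + 1 / (N : ℝ)) ^ N) ^ m := by rw [pow_mul]
      _ ≤ 4 ^ m := pow_le_pow_left₀ (by positivity) (one_add_inv_pow_le N hN) m
  calc ((splitFam S m).card : ℝ) ≤ ((T.powerset.filter (fun F => F.card ≤ m)).card : ℝ) := by
        exact_mod_cast h1
    _ ≤ (N : ℝ) ^ m * (1 + 1 / (N : ℝ)) ^ T.card := h3
    _ ≤ (N : ℝ) ^ m * 4 ^ m := by gcongr
    _ = (4 * N : ℝ) ^ m := by rw [mul_pow]; ring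

/-- The number of split graphs with `m` edges. -/
theorem split_upper (N P m : ℕ) (hN : 1 ≤ N) (hn : Fintype.card V = N * P)
    (hm0 : 1 ≤ m) (hm : 4 * P ^ 2 ≤ m) (A : Set (SimpleGraph V))
    (hA : ∀ G ∈ A, G.edgeSet.ncard = m ∧ ∃ S : Set V, (∀ u ∈ S, ∀ v ∈ S, u ≠ v → G.Adj u v) ∧
      (∀ u, u ∉ S → ∀ v, v ∉ S → ¬ G.Adj u v)) :
    (A.ncard : ℝ) ≤ 2 ^ (Fintype.card V) * (4 * N : ℝ) ^ m := by
  classical
  have h1 : A ⊆ ((univ : Finset (Finset V)).biUnion (fun S => splitFam S m) :
      Finset (SimpleGraph V)) := by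
    intro G hG
    obtain ⟨h1, S, h2, h3⟩ := hA G hG
    rw [mem_coe, mem_biUnion]
    refine ⟨S.toFinset, mem_univ _, ?_⟩
    simp only [splitFam, mem_filter, mem_univ, true_and, Set.mem_toFinset]
    exact ⟨h1, h2, h3⟩
  have h2 : A.ncard ≤ ((univ : Finset (Finset V)).biUnion (fun S => splitFam S m)).card := by
    rw [← Set.ncard_coe_finset]
    exact Set.ncard_le_ncard h1 (Set.toFinite _)
  have h3 : ((univ : Finset (Finset V)).biUnion (fun S => splitFam S m)).card ≤
      ∑ S : Finset V, (splitFam S m).card := card_biUnion_le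
  calc (A.ncard : ℝ) ≤ ((∑ S : Finset V, (splitFam S m).card : ℕ) : ℝ) := by
        exact_mod_cast h2.trans h3
    _ = ∑ S : Finset V, ((splitFam S m).card : ℝ) := by push_cast; rfl
    _ ≤ ∑ _S : Finset V, (4 * N : ℝ) ^ m :=
        sum_le_sum fun S _ => splitFam_card S N P m hN hn hm0 hm
    _ = 2 ^ (Fintype.card V) * (4 * N : ℝ) ^ m := by
        rw [sum_const, nsmul_eq_mul, card_univ, Fintype.card_finset]
        push_cast
        rfl

end Upper

end Pool.Agent.J6H70.SplitC4
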